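import Pool.Agent.Helper5.N2.Stmts2
/-!
# Row GRAD: interior gradient estimate for the Laplacian in the plane

Comparison with `(M0/d²)(y² + x(2d-x)) + N x(d-x)/2` on the half square (Gilbarg-Trudinger 3.4).
-/

set_option autoImplicit false
open scoped ContDiff Topology

namespace N261
open N2

/-- second derivative at a local maximum -/
theorem sec_nonpos {g g1 : ℝ → ℝ} {a c : ℝ} (h0 : ∀ t, HasDerivAt g (g1 t) t)
    (h1 : HasDerivAt g1 c a) (hm : IsLocalMax g a) : c ≤ 0 := by
  by_contra hc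
  push Not at hc
  have hg : deriv g = g1 := funext fun t => (h0 t).deriv
  have h2 : deriv (deriv g) a = c := by rw [hg]; exact h1.deriv
  have h3 : deriv g a = 0 := hm.deriv_eq_zero
  have h4 : IsLocalMin g a := isLocalMin_of_deriv_deriv_pos (by rw [h2]; exact hc) h3
    (h0 a).continuousAt
  have h5 : g =ᶠ[𝓝 a] fun _ => g a := by
    filter_upwards [hm, h4] with t ht1 ht2
    exact le_antisymm ht1 ht2
  have h6 : deriv g =ᶠ[𝓝 a] deriv fun _ : ℝ => g a := h5.deriv
  have h7 : deriv (deriv g) a = 0 := by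
    rw [h6.deriv_eq]
    simp
  rw [h2] at h7
  linarith

/-- weak maximum principle on a rectangle -/
theorem wmp {v vx vxx vy vyy : ℝ → ℝ → ℝ} {d : ℝ} (hd : 0 < d)
    (hc : Continuous (fun q : ℝ × ℝ => v q.1 q.2))
    (hx : ∀ x y, HasDerivAt (fun t => v t y) (vx x y) x)
    (hxx : ∀ x y, HasDerivAt (fun t => vx t y) (vxx x y) x)
    (hy : ∀ x y, HasDerivAt (fun t => v x t) (vy x y) y)
    (hyy : ∀ x y, HasDerivAt (fun t => vy x t) (vyy x y) y)
    (hL : ∀ x y, 0 < x → x < d → -d < y → y < d → 0 < vxx x y + vyy x y)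
    (hb1 : ∀ y, -d ≤ y → y ≤ d → v 0 y ≤ 0) (hb2 : ∀ y, -d ≤ y → y ≤ d → v d y ≤ 0)
    (hb3 : ∀ x, 0 ≤ x → x ≤ d → v x (-d) ≤ 0) (hb4 : ∀ x, 0 ≤ x → x ≤ d → v x d ≤ 0) :
    ∀ x y, 0 ≤ x → x ≤ d → -d ≤ y → y ≤ d → v x y ≤ 0 := by
  have hK : IsCompact (Set.Icc (0:ℝ) d ×ˢ Set.Icc (-d) d) := isCompact_Icc.prod isCompact_Icc
  obtain ⟨⟨a, b⟩, ⟨⟨ha0, had⟩, ⟨hb0, hbd⟩⟩, hmax⟩ := hK.exists_isMaxOn
    ⟨(0, 0), ⟨⟨le_rfl, hd.le⟩, ⟨by simp [hd.le], hd.le⟩⟩⟩ hc.continuousOn
  simp only at ha0 had hb0 hbd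
  have hM : ∀ x y, 0 ≤ x → x ≤ d → -d ≤ y → y ≤ d → v x y ≤ v a b := fun x y h1 h2 h3 h4 =>
    hmax (show (x, y) ∈ Set.Icc (0:ℝ) d ×ˢ Set.Icc (-d) d from ⟨⟨h1, h2⟩, ⟨h3, h4⟩⟩)
  have key : v a b ≤ 0 := by
    by_contra hpos
    push Not at hpos
    have h1 : 0 < a := lt_of_le_of_ne ha0 (fun h => by
      have := hb1 b hb0 hbd; rw [h] at this; linarith)
    have h2 : a < d := lt_of_le_of_ne had (fun h => by
      have := hb2 b hb0 hbd; rw [← h] at this; linarith)
    have h3 : -d < b := lt_of_le_of_ne hb0 (fun h => by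
      have := hb3 a ha0 had; rw [h] at this; linarith)
    have h4 : b < d := lt_of_le_of_ne hbd (fun h => by
      have := hb4 a ha0 had; rw [← h] at this; linarith)
    have m1 : IsLocalMax (fun t => v t b) a := by
      have : Set.Ioo 0 d ∈ 𝓝 a := Ioo_mem_nhds h1 h2
      filter_upwards [this] with t ht
      exact hM t b ht.1.le ht.2.le hb0 hbd
    have m2 : IsLocalMax (fun t => v a t) b := by
      have : Set.Ioo (-d) d ∈ 𝓝 b := Ioo_mem_nhds h3 h4
      filter_upwards [this] with t ht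
      exact hM a t ha0 had ht.1.le ht.2.le
    have c1 := sec_nonpos (fun t => hx t b) (hxx a b) m1
    have c2 := sec_nonpos (fun t => hy a t) (hyy a b) m2
    have := hL a b h1 h2 h3 h4
    linarith
  intro x y h1 h2 h3 h4
  exact (hM x y h1 h2 h3 h4).trans key

/-- a function which vanishes at `0` and is nonpositive on `[0, d]` has nonpositive derivative -/
theorem der_nonpos {F : ℝ → ℝ} {c d : ℝ} (hd : 0 < d) (h : HasDerivAt F c 0) (h0 : F 0 = 0)
    (hF : ∀ x, 0 ≤ x → x ≤ d → F x ≤ 0) : c ≤ 0 := by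
  have h1 : Filter.Tendsto (slope F 0) (𝓝[>] 0) (𝓝 c) :=
    (hasDerivAt_iff_tendsto_slope.mp h).mono_left
      (nhdsWithin_mono _ (fun x hx => ne_of_gt hx))
  refine le_of_tendsto h1 ?_
  have h2 : Set.Ioo 0 d ∈ 𝓝[>] (0:ℝ) := Ioo_mem_nhdsGT hd
  filter_upwards [h2] with t ht
  rw [slope_def_field, h0]
  have h3 := hF t ht.1.le ht.2.le
  have h4 : 0 < t - 0 := by linarith [ht.1]
  exact div_nonpos_of_nonpos_of_nonneg (by linarith) h4.le

/-- the gradient estimate at the centre of the square, in one direction -/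
theorem grad_one {w wx wxx wy wyy : ℝ → ℝ → ℝ} {d M0 N : ℝ} (hd : 0 < d)
    (hc : Continuous (fun q : ℝ × ℝ => w q.1 q.2))
    (hx : ∀ x y, HasDerivAt (fun t => w t y) (wx x y) x)
    (hxx : ∀ x y, HasDerivAt (fun t => wx t y) (wxx x y) x)
    (hy : ∀ x y, HasDerivAt (fun t => w x t) (wy x y) y)
    (hyy : ∀ x y, HasDerivAt (fun t => wy x t) (wyy x y) y)
    (hM : ∀ x y, |x| ≤ d → |y| ≤ d → |w x y| ≤ M0)
    (hN : ∀ x y, |x| ≤ d → |y| ≤ d → |wxx x y + wyy x y| ≤ N) :
    wx 0 0 ≤ 2 * M0 / d + N * d / 2 := by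
  have hN0 : 0 ≤ N := (abs_nonneg _).trans (hN 0 0 (by simp [hd.le]) (by simp [hd.le]))
  have hM00 : 0 ≤ M0 := (abs_nonneg _).trans (hM 0 0 (by simp [hd.le]) (by simp [hd.le]))
  refine le_of_forall_pos_le_add fun ε hε => ?_
  set K : ℝ := N + 2 * ε / d with hK
  have hKN : N < K := by
    have : 0 < 2 * ε / d := by positivity
    linarith
  have hK0 : 0 ≤ K := by linarith
  set A : ℝ := M0 / d ^ 2 with hA
  have hA0 : 0 ≤ A := by positivity
  have hAd : A * d ^ 2 = M0 := by
    rw [hA]; field_simp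
  have hneg : ∀ (f : ℝ → ℝ) (c x : ℝ), HasDerivAt f c (-x) →
      HasDerivAt (fun t => f (-t)) (-c) x := by
    intro f c x h
    have h1 : HasDerivAt (fun t : ℝ => f (-t)) (c * -1) x := h.comp x (hasDerivAt_neg x)
    refine h1.congr_deriv ?_
    ring
  have hpx : ∀ x : ℝ, HasDerivAt (fun t : ℝ => t * (2 * d - t)) (2 * d - 2 * x) x := by
    intro x
    have h1 := (hasDerivAt_id x).mul ((hasDerivAt_id x).const_sub (2 * d))
    refine h1.congr_deriv ?_
    simp only [id]
    ring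
  have hqx : ∀ x : ℝ, HasDerivAt (fun t : ℝ => t * (d - t)) (d - 2 * x) x := by
    intro x
    have h1 := (hasDerivAt_id x).mul ((hasDerivAt_id x).const_sub d)
    refine h1.congr_deriv ?_
    simp only [id]
    ring
  have hlin : ∀ a b x : ℝ, HasDerivAt (fun t : ℝ => a - b * t) (-b) x := by
    intro a b x
    have h1 := ((hasDerivAt_id x).const_mul b).const_sub a
    refine h1.congr_deriv ?_
    simp
  -- the comparison
  have hv := wmp (d := d)
    (v := fun x y => (w x y - w (-x) y) / 2 - A * (y ^ 2 + x * (2 * d - x)) - K * (x * (d - x)) / 2)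
    (vx := fun x y => (wx x y + wx (-x) y) / 2 - A * (2 * d - 2 * x) - K * (d - 2 * x) / 2)
    (vxx := fun x y => (wxx x y - wxx (-x) y) / 2 + 2 * A + K)
    (vy := fun x y => (wy x y - wy (-x) y) / 2 - A * (2 * y))
    (vyy := fun x y => (wyy x y - wyy (-x) y) / 2 - 2 * A) hd
    (by
      have hc' : Continuous (fun q : ℝ × ℝ => w (-q.1) q.2) :=
        hc.comp (f := fun q : ℝ × ℝ => (-q.1, q.2)) (by fun_prop)
      fun_prop)
    (by
      intro x y
      have h1 := ((hx x y).sub (hneg (fun t => w t y) _ x (hx (-x) y))).div_const 2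
      have h2 := ((hpx x).const_add (y ^ 2)).const_mul A
      have h3 := ((hqx x).const_mul K).div_const 2
      refine ((h1.sub h2).sub h3).congr_deriv ?_
      ring)
    (by
      intro x y
      have h1 := ((hxx x y).add (hneg (fun t => wx t y) _ x (hxx (-x) y))).div_const 2
      have h2 := (hlin (2 * d) 2 x).const_mul A
      have h3 := ((hlin d 2 x).const_mul K).div_const 2
      refine ((h1.sub h2).sub h3).congr_deriv ?_
      ring)
    (by
      intro x y
      have h1 := ((hy x y).sub (hy (-x) y)).div_const 2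
      have h2 : HasDerivAt (fun t : ℝ => A * (t ^ 2 + x * (2 * d - x))) (A * (2 * y)) y := by
        have h3 := ((hasDerivAt_pow 2 y).add_const (x * (2 * d - x))).const_mul A
        refine h3.congr_deriv ?_
        simp
      refine ((h1.sub h2).sub_const (K * (x * (d - x)) / 2)))
    (by
      intro x y
      have h1 := ((hyy x y).sub (hyy (-x) y)).div_const 2
      have h2 : HasDerivAt (fun t : ℝ => A * (2 * t)) (2 * A) y := by
        have h3 := ((hasDerivAt_id y).const_mul 2).const_mul A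
        refine h3.congr_deriv ?_
        ring
      exact h1.sub h2)
    (by
      intro x y h1 h2 h3 h4
      have a1 := abs_le.mp (hN x y (abs_le.mpr ⟨by linarith, h2.le⟩) (abs_le.mpr ⟨h3.le, h4.le⟩))
      have a2 := abs_le.mp (hN (-x) y (abs_le.mpr ⟨by linarith, by linarith⟩)
        (abs_le.mpr ⟨h3.le, h4.le⟩))
      linarith [a1.1, a2.2])
    (by
      intro y h1 h2
      have : 0 ≤ A * y ^ 2 := by positivity
      simp
      linarith)
    (by
      intro y h1 h2
      have a1 := abs_le.mp (hM d y (abs_le.mpr ⟨by linarith, le_rfl⟩) (abs_le.mpr ⟨h1, h2⟩))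
      have a2 := abs_le.mp (hM (-d) y (abs_le.mpr ⟨le_rfl, by linarith⟩) (abs_le.mpr ⟨h1, h2⟩))
      have : 0 ≤ A * y ^ 2 := by positivity
      have e : A * (y ^ 2 + d * (2 * d - d)) = A * y ^ 2 + M0 := by
        rw [← hAd]; ring
      rw [e]
      simp only [sub_self, mul_zero, zero_div, sub_zero]
      linarith [a1.2, a2.1])
    (by
      intro x h1 h2
      have a1 := abs_le.mp (hM x (-d) (abs_le.mpr ⟨by linarith, h2⟩)
        (abs_le.mpr ⟨le_rfl, by linarith⟩))
      have a2 := abs_le.mp (hM (-x) (-d) (abs_le.mpr ⟨by linarith, by linarith⟩)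
        (abs_le.mpr ⟨le_rfl, by linarith⟩))
      have e : A * ((-d) ^ 2 + x * (2 * d - x)) = M0 + A * (x * (2 * d - x)) := by
        rw [← hAd]; ring
      have p1 : 0 ≤ A * (x * (2 * d - x)) :=
        mul_nonneg hA0 (mul_nonneg h1 (by linarith))
      have p2 : 0 ≤ K * (x * (d - x)) := mul_nonneg hK0 (mul_nonneg h1 (by linarith))
      rw [e]
      linarith [a1.2, a2.1])
    (by
      intro x h1 h2
      have a1 := abs_le.mp (hM x d (abs_le.mpr ⟨by linarith, h2⟩)
        (abs_le.mpr ⟨by linarith, le_rfl⟩))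
      have a2 := abs_le.mp (hM (-x) d (abs_le.mpr ⟨by linarith, by linarith⟩)
        (abs_le.mpr ⟨by linarith, le_rfl⟩))
      have e : A * (d ^ 2 + x * (2 * d - x)) = M0 + A * (x * (2 * d - x)) := by
        rw [← hAd]; ring
      have p1 : 0 ≤ A * (x * (2 * d - x)) :=
        mul_nonneg hA0 (mul_nonneg h1 (by linarith))
      have p2 : 0 ≤ K * (x * (d - x)) := mul_nonneg hK0 (mul_nonneg h1 (by linarith))
      rw [e]
      linarith [a1.2, a2.1])
  have hder : HasDerivAt (fun x => (w x 0 - w (-x) 0) / 2 - A * ((0:ℝ) ^ 2 + x * (2 * d - x))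
      - K * (x * (d - x)) / 2) (wx 0 0 - A * (2 * d) - K * d / 2) 0 := by
    have h0 : HasDerivAt (fun t => w t 0) (wx 0 0) (-(0:ℝ)) := by
      rw [neg_zero]; exact hx 0 0
    have h1 := ((hx 0 0).sub (hneg (fun t => w t 0) _ 0 h0)).div_const 2
    have h2 := ((hpx 0).const_add ((0:ℝ) ^ 2)).const_mul A
    have h3 := ((hqx 0).const_mul K).div_const 2
    refine ((h1.sub h2).sub h3).congr_deriv ?_
    ring
  have hfin := der_nonpos hd hder (by simp) (fun x h1 h2 =>
    hv x 0 h1 h2 (by linarith) hd.le)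
  have e1 : A * (2 * d) = 2 * M0 / d := by
    rw [hA]; field_simp
  have e2 : K * d / 2 = N * d / 2 + ε := by
    rw [hK]; field_simp
  linarith

/-- derivative along a line -/
theorem line_der (u : Sm) (c : ℂ) (q e : ℝ × ℝ) (x : ℝ) :
    HasDerivAt (fun t : ℝ => (c * u.val (q + t • e)).re) ((c * (pd e u).val (q + x • e)).re) x := by
  have h1 : HasDerivAt (fun t : ℝ => q + t • e) e x := by
    have := ((hasDerivAt_id x).smul_const e).const_add q
    simpa using this
  have h2 : HasDerivAt (fun t : ℝ => u.val (q + t • e)) (fderiv ℝ u.val (q + x • e) e) x :=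
    (u.diff (q + x • e)).hasFDerivAt.comp_hasDerivAt x h1
  have h3 := h2.const_mul c
  exact Complex.reCLM.hasFDerivAt.comp_hasDerivAt x h3

theorem lap_eq (u : Sm) : D' (D u) = cst (1 / 4) * (pd (1, 0) (pd (1, 0) u)
    + pd (0, 1) (pd (0, 1) u)) := by
  show Sm.Dw (Sm.Dz u) = _
  have h := pd_comm (1, 0) (0, 1) u
  have hI : cst Complex.I * cst Complex.I = -1 := by
    rw [← map_mul, Complex.I_mul_I, map_neg, map_one]
  have h4 : cst (1 / 4 : ℂ) = cst (1 / 2) * cst (1 / 2) := by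
    rw [← map_mul]; norm_num
  simp only [Sm.Dz, Sm.Dw, pd_mul, pd_add, sub_eq_add_neg, pd_cst, zero_mul, zero_add, pd_neg]
  rw [h4]
  linear_combination (-(cst (1/2) * cst (1/2) * cst Complex.I)) * h
    - (cst (1/2) * cst (1/2) * pd (0, 1) (pd (0, 1) u)) * hI

/-- the estimate for one real partial derivative of a complex function -/
theorem grad_dir (u : Sm) (p e e' : ℝ × ℝ) (d M0 M1 : ℝ) (hd : 0 < d)
    (he : ∀ x y : ℝ, |x| ≤ d → |y| ≤ d →
      |(p + x • e + y • e').1 - p.1| ≤ d ∧ |(p + x • e + y • e').2 - p.2| ≤ d)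
    (hl : pd e (pd e u) + pd e' (pd e' u) = cst 4 * D' (D u))
    (h0 : ∀ q : ℝ × ℝ, |q.1 - p.1| ≤ d → |q.2 - p.2| ≤ d → ‖ev q u‖ ≤ M0)
    (h1 : ∀ q : ℝ × ℝ, |q.1 - p.1| ≤ d → |q.2 - p.2| ≤ d → ‖ev q (D' (D u))‖ ≤ M1) :
    ‖(pd e u).val p‖ ≤ 2 * M0 / d + 4 * M1 * d / 2 := by
  obtain ⟨c, hc1, hc2⟩ : ∃ c : ℂ, ‖c‖ = 1 ∧ (c * (pd e u).val p).re = ‖(pd e u).val p‖ := by
    by_cases hz : (pd e u).val p = 0
    · exact ⟨1, by simp, by rw [hz]; simp⟩
    · have hn : ((‖(pd e u).val p‖ : ℝ) : ℂ) ≠ 0 := by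
        exact_mod_cast norm_ne_zero_iff.mpr hz
      refine ⟨(starRingEnd ℂ) ((pd e u).val p) / ‖(pd e u).val p‖, ?_, ?_⟩
      · rw [norm_div, RCLike.norm_conj, Complex.norm_real, norm_norm,
          div_self (norm_ne_zero_iff.mpr hz)]
      · have : (starRingEnd ℂ) ((pd e u).val p) / ‖(pd e u).val p‖ * (pd e u).val p
            = ((‖(pd e u).val p‖ : ℝ) : ℂ) := by
          rw [div_mul_eq_mul_div, mul_comm, Complex.mul_conj, Complex.normSq_eq_norm_sq]
          push_cast
          field_simp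
        rw [this, Complex.ofReal_re]
  have hcomm : ∀ x y : ℝ, p + x • e + y • e' = p + y • e' + x • e := by
    intro x y; abel
  have key := grad_one (w := fun x y => (c * u.val (p + x • e + y • e')).re)
    (wx := fun x y => (c * (pd e u).val (p + x • e + y • e')).re)
    (wxx := fun x y => (c * (pd e (pd e u)).val (p + x • e + y • e')).re)
    (wy := fun x y => (c * (pd e' u).val (p + x • e + y • e')).re)
    (wyy := fun x y => (c * (pd e' (pd e' u)).val (p + x • e + y • e')).re)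
    (M0 := M0) (N := 4 * M1) hd
    (by
      have : Continuous u.val := u.contDiff.continuous
      fun_prop)
    (by
      intro x y
      simp only [hcomm]
      exact line_der u c _ e x)
    (by
      intro x y
      simp only [hcomm]
      exact line_der (pd e u) c _ e x)
    (fun x y => line_der u c _ e' y)
    (fun x y => line_der (pd e' u) c _ e' y)
    (by
      intro x y hx hy
      have h2 := h0 _ (he x y hx hy).1 (he x y hx hy).2
      rw [ev_val] at h2
      calc |(c * u.val (p + x • e + y • e')).re| ≤ ‖c * u.val (p + x • e + y • e')‖ :=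
            Complex.abs_re_le_norm _
        _ ≤ M0 := by rw [norm_mul, hc1, one_mul]; exact h2)
    (by
      intro x y hx hy
      have h2 := h1 _ (he x y hx hy).1 (he x y hx hy).2
      rw [ev_val] at h2
      have h3 := congrArg (fun f : Sm => f.val (p + x • e + y • e')) hl
      simp only [add_val, mul_val, cst_val] at h3
      rw [← Complex.add_re, ← mul_add, h3]
      calc |(c * (4 * (D' (D u)).val (p + x • e + y • e'))).re|
          ≤ ‖c * (4 * (D' (D u)).val (p + x • e + y • e'))‖ := Complex.abs_re_le_norm _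
        _ ≤ 4 * M1 := by
          rw [norm_mul, hc1, one_mul, norm_mul]
          have : ‖(4:ℂ)‖ = 4 := by simp
          rw [this]
          linarith)
  simp only [zero_smul, add_zero] at key
  rw [hc2] at key
  exact key

theorem st_GRAD : ST_GRAD := by
  intro u p d M0 M1 hd h0 h1
  have h4 : cst (4 : ℂ) * cst (1 / 4 : ℂ) = 1 := by
    rw [← map_mul]; norm_num
  have hM00 : 0 ≤ M0 := (norm_nonneg _).trans (h0 p (by simp [hd.le]) (by simp [hd.le]))
  have hM10 : 0 ≤ M1 := (norm_nonneg _).trans (h1 p (by simp [hd.le]) (by simp [hd.le]))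
  have a1 := grad_dir u p (1, 0) (0, 1) d M0 M1 hd
    (by
      intro x y hx hy
      simp [hx, hy])
    (by
      rw [lap_eq]
      linear_combination (-(pd (1, 0) (pd (1, 0) u) + pd (0, 1) (pd (0, 1) u))) * h4) h0 h1
  have a2 := grad_dir u p (0, 1) (1, 0) d M0 M1 hd
    (by
      intro x y hx hy
      simp [hx, hy])
    (by
      rw [lap_eq]
      linear_combination (-(pd (1, 0) (pd (1, 0) u) + pd (0, 1) (pd (0, 1) u))) * h4) h0 h1
  have hD : ev p (D u) = (1 / 2) * ((pd (1, 0) u).val p - Complex.I * (pd (0, 1) u).val p) := rfl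
  have h5 : ‖ev p (D u)‖ ≤ (1 / 2) * (‖(pd (1, 0) u).val p‖ + ‖(pd (0, 1) u).val p‖) := by
    rw [hD, norm_mul]
    have e1 : ‖(1 / 2 : ℂ)‖ = 1 / 2 := by norm_num
    rw [e1]
    have e2 : ‖(pd (1, 0) u).val p - Complex.I * (pd (0, 1) u).val p‖
        ≤ ‖(pd (1, 0) u).val p‖ + ‖Complex.I * (pd (0, 1) u).val p‖ := norm_sub_le _ _
    rw [norm_mul, Complex.norm_I, one_mul] at e2
    linarith
  have b1 : 2 * M0 / d ≤ 8 * M0 / d := by
    gcongr
    norm_num
  have b2 : 4 * M1 * d / 2 ≤ 8 * d * M1 := by nlinarith [mul_nonneg hM10 hd.le]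
  linarith

end N261
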