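import Pool.Agent.Helper34.FQ.Defs
import Pool.Agent.Helper34.PN.AVG

/-!
A set of revealed points which is maximal for weighted energy minus cost (row MAXD, helper61).
-/

namespace Pool.Agent.Helper34.FQ

open Finset Pool.Agent.Helper34.PN

theorem exists_maxD {Ω α : Type} [Fintype Ω] [Nonempty Ω] [LinearOrder α]
    (s : Ω → α → Fin 3) (Z : Finset α) (D : α → ℝ) (hD : ∀ x ∈ Z, 0 ≤ D x) (c : ℝ)
    (hc : 0 < c) : ∃ W : Finset α, Wd s Z W D c := by
  set N : ℝ := (Fintype.card Ω : ℝ) with hN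
  have hNpos : 0 < N := by
    rw [hN]
    exact_mod_cast Fintype.card_pos
  obtain ⟨W, hWmem, hWmax⟩ := exists_max_image Z.powerset
    (fun W => ∑ x ∈ Z, D x * energy s x (lw W x) - c * (∑ x ∈ W, D x) * N)
    ⟨∅, empty_mem_powerset _⟩
  have hWZ : W ⊆ Z := mem_powerset.1 hWmem
  refine ⟨W, hWZ, ?_, ?_⟩
  · have h1 := hWmax ∅ (empty_mem_powerset _)
    have h2 : 0 ≤ ∑ x ∈ Z, D x * energy s x (lw (∅ : Finset α) x) :=
      sum_nonneg fun x hx => mul_nonneg (hD x hx) (energy_nonneg s x _)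
    have h3 : ∑ x ∈ Z, D x * energy s x (lw W x) ≤ (∑ x ∈ Z, D x) * N := by
      rw [sum_mul]
      exact sum_le_sum fun x hx => mul_le_mul_of_nonneg_left (energy_le s x _) (hD x hx)
    simp only [sum_empty, mul_zero, zero_mul, sub_zero] at h1
    have h4 : c * (∑ x ∈ W, D x) * N ≤ (∑ x ∈ Z, D x) * N := by linarith
    exact le_of_mul_le_mul_right h4 hNpos
  · intro V hV
    have h1 := hWmax (W ∪ V) (mem_powerset.2 (union_subset hWZ hV))
    have h0 : 0 ≤ ∑ x ∈ W ∩ V, D x :=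
      sum_nonneg fun x hx => hD x (hWZ (mem_of_mem_inter_left hx))
    have h2 : ∑ x ∈ W ∪ V, D x ≤ ∑ x ∈ W, D x + ∑ x ∈ V, D x := by
      have h5 := sum_union_inter (s₁ := W) (s₂ := V) (f := D)
      linarith
    have h3 : c * (∑ x ∈ W ∪ V, D x) * N ≤ c * (∑ x ∈ W, D x + ∑ x ∈ V, D x) * N := by
      gcongr
    simp only [mul_sub, sum_sub_distrib]
    linarith [h1, h3, mul_add c (∑ x ∈ W, D x) (∑ x ∈ V, D x),
      add_mul (c * (∑ x ∈ W, D x)) (c * (∑ x ∈ V, D x)) N]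

end Pool.Agent.Helper34.FQ
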